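import Pool.Agent.W181.RT.Props

/-! `S_KI` and `S_STEP` of the proof of the Reiner–Tudose conjecture. -/

set_option autoImplicit false

namespace Pool.Agent.W225.RT

open Polynomial Pool.Agent.W181.RT

theorem Th_add {R : Type} [CommRing R] (q : ℕ → R) (i : ℕ) (g h : MvPolynomial (Fin i) R) :
    Th q i (g + h) = Th q i g + Th q i h := by
  simp only [Th, map_add, add_mul]

theorem Th_zero {R : Type} [CommRing R] (q : ℕ → R) (i : ℕ) :
    Th q i (0 : MvPolynomial (Fin i) R) = 0 := by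
  simp only [Th, map_zero, zero_mul]

theorem Th_smul {R : Type} [CommRing R] (q : ℕ → R) (i : ℕ) (r : R) (g : MvPolynomial (Fin i) R) :
    Th q i (r • g) = r * Th q i g := by
  simp only [Th, map_smul, smul_mul_assoc, smul_eq_mul]

/-- `Th` as `R`-linear map. -/
noncomputable def ThL {R : Type} [CommRing R] (q : ℕ → R) (i : ℕ) :
    MvPolynomial (Fin i) R →ₗ[R] R where
  toFun := Th q i
  map_add' := Th_add q i
  map_smul' := by
    intro r g
    rw [Th_smul]
    rfl

theorem TT_rel (ℓ k s : ℕ) :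
    ∑ b ∈ Finset.range (k + 1), (TT ℓ k).coeff b * qq ℓ k (k - b + s) = 0 := by
  have h : (TT ℓ k * PP ℓ k).coeff (k + s) = (derivative (TT ℓ k)).coeff (k + s) := by rw [TP]
  rw [Polynomial.coeff_derivative, TT_coeff_big ℓ k (k + s + 1) (by omega), zero_mul,
    Polynomial.coeff_mul, Finset.Nat.sum_antidiagonal_eq_sum_range_succ_mk] at h
  rw [← h]
  have hsub : Finset.range (k + 1) ⊆ Finset.range (k + s).succ := by
    intro x hx
    simp only [Finset.mem_range] at *
    omega
  rw [← Finset.sum_subset hsub]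
  · apply Finset.sum_congr rfl
    intro b hb
    simp only [Finset.mem_range] at hb
    have : k - b + s = k + s - b := by omega
    rw [this]
    rfl
  · intro b _ hb2
    simp only [Finset.mem_range, not_lt] at hb2
    simp only
    rw [TT_coeff_big ℓ k b (by omega), zero_mul]

theorem SS_rel (ℓ k s : ℕ) :
    ∑ b ∈ Finset.range (ℓ + 1), (SS ℓ k).coeff b * qq ℓ k (ℓ - b + s) = 0 := by
  have h : (SS ℓ k * PP ℓ k).coeff (ℓ + s) = (- derivative (SS ℓ k)).coeff (ℓ + s) := by rw [SP]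
  rw [Polynomial.coeff_neg, Polynomial.coeff_derivative, SS_coeff_big ℓ k (ℓ + s + 1) (by omega),
    zero_mul, neg_zero,
    Polynomial.coeff_mul, Finset.Nat.sum_antidiagonal_eq_sum_range_succ_mk] at h
  rw [← h]
  have hsub : Finset.range (ℓ + 1) ⊆ Finset.range (ℓ + s).succ := by
    intro x hx
    simp only [Finset.mem_range] at *
    omega
  rw [← Finset.sum_subset hsub]
  · apply Finset.sum_congr rfl
    intro b hb
    simp only [Finset.mem_range] at hb
    have : ℓ - b + s = ℓ + s - b := by omega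
    rw [this]
    rfl
  · intro b _ hb2
    simp only [Finset.mem_range, not_lt] at hb2
    simp only
    rw [SS_coeff_big ℓ k b (by omega), zero_mul]

theorem t_KI (h1 : S_T1) (h2 : S_T2) : S_KI := by
  intro ℓ k i g hg
  have key : ∀ x ∈ KI (qq ℓ k) i (SS ℓ k) (TT ℓ k) ℓ k, ∀ r : MvPolynomial (Fin i) (RR ℓ k),
      Th (qq ℓ k) i (r * x) ∈ PI (qq ℓ k) (i + 1) := by
    intro x hx
    unfold KI at hx
    induction hx using Submodule.span_induction with
    | mem x hx =>
      intro r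
      rcases hx with (⟨a, rfl⟩ | ⟨l, hl, rfl⟩) | ⟨l, hl, rfl⟩
      · exact h1 _ _ _ _ _
      · rw [h2 (RR ℓ k) (qq ℓ k) i k (TT ℓ k) (fun n hn => TT_coeff_big ℓ k n hn)
          (fun s => TT_rel ℓ k s) l r hl]
        exact Ideal.zero_mem _
      · rw [h2 (RR ℓ k) (qq ℓ k) i ℓ (SS ℓ k) (fun n hn => SS_coeff_big ℓ k n hn)
          (fun s => SS_rel ℓ k s) l r hl]
        exact Ideal.zero_mem _
    | zero =>
      intro r
      rw [mul_zero, Th_zero]
      exact Ideal.zero_mem _
    | add x y _ _ hx hy =>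
      intro r
      rw [mul_add, Th_add]
      exact Ideal.add_mem _ (hx r) (hy r)
    | smul a x _ hx =>
      intro r
      rw [smul_eq_mul, ← mul_assoc]
      exact hx (r * a)
  have := key g hg 1
  rwa [one_mul] at this

theorem t_STEP (h3 : S_T3) (hK : S_KI) (hS : S_SPB) : S_STEP := by
  intro ℓ k i hik hil
  set N : Submodule ℚ (RR ℓ k) := (Submodule.span ℚ {x : RR ℓ k | ∃ lam mu : Multiset ℕ,
        Multiset.card lam = i ∧ Multiset.card mu = i ∧
        (∀ t ∈ lam, t ≤ k - i) ∧ (∀ t ∈ mu, t ≤ ℓ - i) ∧ x = Th (qq ℓ k) i (XY ℓ k i lam mu)}) ⊔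
    ((PI (qq ℓ k) (i + 1)).restrictScalars ℚ) with hN
  let f : MvPolynomial (Fin i) (RR ℓ k) →ₗ[ℚ] RR ℓ k := (ThL (qq ℓ k) i).restrictScalars ℚ
  have hf : ∀ g, f g = Th (qq ℓ k) i g := fun g => rfl
  have hall : ∀ g, Th (qq ℓ k) i g ∈ N := by
    intro g
    have hg : g ∈ (⊤ : Submodule ℚ (MvPolynomial (Fin i) (RR ℓ k))) := Submodule.mem_top
    rw [← hS ℓ k i hik hil] at hg
    have h1 : f g ∈ Submodule.map f ((Submodule.span ℚ {x : MvPolynomial (Fin i) (RR ℓ k) |
        ∃ lam mu : Multiset ℕ,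
        Multiset.card lam = i ∧ Multiset.card mu = i ∧
        (∀ t ∈ lam, t ≤ k - i) ∧ (∀ t ∈ mu, t ≤ ℓ - i) ∧ x = XY ℓ k i lam mu}) ⊔
      ((KI (qq ℓ k) i (SS ℓ k) (TT ℓ k) ℓ k).restrictScalars ℚ)) := Submodule.mem_map_of_mem hg
    rw [Submodule.map_sup] at h1
    rw [← hf]
    refine (show _ ≤ N from sup_le_sup ?_ ?_) h1
    · rw [Submodule.map_span]
      apply Submodule.span_mono
      rintro _ ⟨x, ⟨lam, mu, a1, a2, a3, a4, rfl⟩, rfl⟩
      exact ⟨lam, mu, a1, a2, a3, a4, rfl⟩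
    · rintro _ ⟨x, hx, rfl⟩
      exact hK ℓ k i x hx
  intro x hx
  have hx' : x ∈ PI (qq ℓ k) i := hx
  unfold PI at hx'
  have key : ∀ y ∈ Ideal.span (Set.range (hk (qq ℓ k) i)), ∀ r : RR ℓ k, r * y ∈ N := by
    intro y hy
    induction hy using Submodule.span_induction with
    | mem y hy =>
      intro r
      obtain ⟨α, rfl⟩ := hy
      obtain ⟨g, hg⟩ := h3 (RR ℓ k) (qq ℓ k) i α
      rw [← hg, ← Th_smul]
      exact hall _
    | zero =>
      intro r
      rw [mul_zero]
      exact Submodule.zero_mem _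
    | add a b _ _ ha hb =>
      intro r
      rw [mul_add]
      exact Submodule.add_mem _ (ha r) (hb r)
    | smul a y _ hy =>
      intro r
      rw [smul_eq_mul, ← mul_assoc]
      exact hy (r * a)
  have := key x hx' 1
  rwa [one_mul] at this

end Pool.Agent.W225.RT
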